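import Pool.Agent.MP2d204e.Bounds
import Pool.Agent.MP2d204e.Opt

/-!
MP_2d204e_co, Q2: the maximum Laplacian energy of connected threshold graphs with `m` edges.
-/

namespace Pool.Agent.Results.MP_2d204e_co.ThresholdEnergy

open Pool.Agent.MP2d204e SimpleGraph Finset

/-- The optimal index: 1 for m ≤ 15; for m ≥ 16 the least integer j ≥ 3 with
(j+1) (m+1-C(j,2)) (m+1-C(j+1,2)) ≤ 2 m (m+1+C(j+1,2)), with truncated subtraction. -/
noncomputable def optIndex (m : ℕ) : ℕ :=
  if m ≤ 15 then 1 else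
    sInf {j : ℕ | 3 ≤ j ∧
      (j + 1) * (m + 1 - j.choose 2) * (m + 1 - (j + 1).choose 2) ≤
        2 * m * (m + 1 + (j + 1).choose 2)}

/-- `2m + j(j+1) - 4mj / (m+1-C(j,2))`, the Laplacian energy of the pineapple with `m` edges and
clique number `j+1` (it has `m+1-C(j,2)` vertices). -/
noncomputable def pineappleEnergy (m j : ℕ) : ℝ :=
  2 * m + (j : ℝ) * (j + 1) - 4 * m * j / ((m : ℝ) + 1 - (j.choose 2 : ℕ))

/-- The set of Laplacian energies of connected threshold graphs with `m` edges. -/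
def thresholdEnergies (m : ℕ) : Set ℝ :=
  {x | ∃ (n : ℕ) (G : SimpleGraph (Fin n)), G.Connected ∧ IsThreshold G ∧ G.edgeSet.ncard = m ∧
    lapEnergy G = x}

theorem pineappleEnergy_eq (m j : ℕ) : pineappleEnergy m j = 2 * ff m j := by
  unfold pineappleEnergy ff nn
  rw [cast_choose]
  ring

open Classical in
theorem lapEnergy_eq {n' n : ℕ} (G : SimpleGraph (Fin n')) (s : Fin n → Bool) (e : G ≃g thrGraph s) :
    n' = n ∧ G.edgeSet.ncard = edg s ∧ lapEnergy G = en s := by
  have h1 : n' = n := by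
    have := Fintype.card_congr e.toEquiv
    simpa using this
  have h2 : G.edgeFinset.card = edg s := by
    rw [← edges_thr s, e.card_edgeFinset_eq]
  have h3 : G.edgeSet.ncard = edg s := by
    rw [← h2, Set.ncard_eq_toFinset_card']
    rfl
  refine ⟨h1, h3, ?_⟩
  subst h1
  unfold lapEnergy en
  rw [h2, Fintype.card_fin]
  have := eigenvalues_sum G s e (fun x => |x - 2 * (edg s : ℝ) / n'|)
  convert this using 2

/-- code of the pineapple -/
def pcode (n J : ℕ) : Fin n → Bool := fun l => decide (l.val < J ∨ l.val + 1 = n)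

theorem pcode_edg {n J : ℕ} (h : J + 1 ≤ n) : edg (pcode n J) = J.choose 2 + (n - 1) := by
  unfold edg pcode
  have h1 : (∑ l : Fin n, if decide (l.val < J ∨ l.val + 1 = n) = true then l.val else 0) =
      ∑ l ∈ Finset.range n, if l < J ∨ l + 1 = n then l else 0 := by
    rw [← Fin.sum_univ_eq_sum_range (fun l => if l < J ∨ l + 1 = n then l else 0) n]
    apply Finset.sum_congr rfl
    intro l _
    simp
  rw [h1]
  obtain ⟨k, rfl⟩ : ∃ k, n = k + 1 := ⟨n - 1, by omega⟩
  rw [Finset.sum_range_succ]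
  have h2 : (if k < J ∨ k + 1 = k + 1 then k else 0) = k := by simp
  rw [h2]
  have h3 : (∑ l ∈ Finset.range k, if l < J ∨ l + 1 = k + 1 then l else 0) =
      ∑ l ∈ Finset.range J, l := by
    have h4 : (∑ l ∈ Finset.range k, if l < J ∨ l + 1 = k + 1 then l else 0) =
        ∑ l ∈ Finset.range k, if l ∈ Finset.range J then l else 0 := by
      apply Finset.sum_congr rfl
      intro l hl
      rw [Finset.mem_range] at hl
      have : (l < J ∨ l + 1 = k + 1) ↔ l ∈ Finset.range J := by
        rw [Finset.mem_range]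
        constructor
        · rintro (h | h)
          · exact h
          · omega
        · intro h; exact Or.inl h
      simp only [this]
    rw [h4, Finset.sum_ite_mem]
    congr 1
    ext l
    simp only [Finset.mem_inter, Finset.mem_range]
    omega
  rw [h3, Finset.sum_range_id, Nat.choose_two_right]
  rfl

theorem pcode_conn {n J : ℕ} (hn : 2 ≤ n) : (thrGraph (pcode n J)).Connected := by
  have hlast : ∀ u : Fin n, u ≠ ⟨n - 1, by omega⟩ →
      (thrGraph (pcode n J)).Adj ⟨n - 1, by omega⟩ u := by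
    intro u hu
    rw [thr_adj]
    refine ⟨hu.symm, ?_⟩
    have hle : u ≤ ⟨n - 1, by omega⟩ := by
      rw [Fin.le_def]; change u.val ≤ n - 1; have := u.isLt; omega
    rw [max_eq_left hle]
    unfold pcode
    simp only [decide_eq_true_eq]
    right; omega
  have hreach : ∀ u : Fin n, (thrGraph (pcode n J)).Reachable ⟨n - 1, by omega⟩ u := by
    intro u
    by_cases h : u = ⟨n - 1, by omega⟩
    · rw [h]
    · exact (hlast u h).reachable
  have : Nonempty (Fin n) := ⟨⟨n - 1, by omega⟩⟩
  exact ⟨fun u v => (hreach u).symm.trans (hreach v)⟩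

theorem pcode_energy {n J : ℕ} (hJ : 1 ≤ J) (h : J + 1 ≤ n) :
    2 * ((edg (pcode n J) : ℝ) + (J : ℝ) * ((J : ℝ) + 1) / 2
      - 2 * (edg (pcode n J) : ℝ) * J / n) ≤ en (pcode n J) := by
  classical
  set S : Finset (Fin n) := univ.filter fun l => pcode n J l = true ∧ l.val ≠ 0 with hS
  have hcard : S.card = J := by
    have h1 : S = (univ.filter fun l : Fin n => 1 ≤ l.val ∧ l.val < J) ∪ {⟨n - 1, by omega⟩} := by
      ext l
      rw [hS, Finset.mem_filter, Finset.mem_union, Finset.mem_filter, Finset.mem_singleton]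
      unfold pcode
      simp only [decide_eq_true_eq, Finset.mem_univ, true_and]
      constructor
      · rintro ⟨h1 | h1, h2⟩
        · left; exact ⟨by omega, h1⟩
        · right; apply Fin.ext; change l.val = n - 1; omega
      · rintro (⟨h1, h2⟩ | h1)
        · exact ⟨Or.inl h2, by omega⟩
        · rw [h1]; change ((n - 1 < J ∨ n - 1 + 1 = n) ∧ ¬ (n - 1 = 0)); omega
    rw [h1, Finset.card_union_of_disjoint]
    · have h2 : (univ.filter fun l : Fin n => 1 ≤ l.val ∧ l.val < J).card = J - 1 := by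
        have h3 : (univ.filter fun l : Fin n => 1 ≤ l.val ∧ l.val < J).map Fin.valEmbedding =
            Finset.Ico 1 J := by
          ext l
          simp only [Finset.mem_map, Finset.mem_filter, Finset.mem_univ, true_and,
            Fin.valEmbedding_apply, Finset.mem_Ico]
          constructor
          · rintro ⟨a, ha, rfl⟩; exact ha
          · intro hl; exact ⟨⟨l, by omega⟩, hl, rfl⟩
        rw [← Finset.card_map Fin.valEmbedding, h3, Nat.card_Ico]
      rw [h2, Finset.card_singleton]; omega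
    · rw [Finset.disjoint_singleton_right, Finset.mem_filter]
      rintro ⟨-, h2⟩
      have : n - 1 < J := h2.2
      omega
  have h1 := brouwer_eq (pcode n J) S (fun j hj => by rw [hS, Finset.mem_filter] at hj; exact hj.2.2)
    (fun j hj h0 => by rw [hS, Finset.mem_filter]; exact ⟨Finset.mem_univ _, hj, h0⟩)
    (fun j hj => by rw [hS, Finset.mem_filter] at hj; exact hj.2.1)
  have h2 := en_lower (pcode n J) (by omega) S
  rw [h1, hcard] at h2
  refine le_trans (le_of_eq ?_) h2
  ring

/-- every energy is at most that of some pineapple-type value -/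
theorem upper {m : ℕ} (hm : 1 ≤ m) {x : ℝ} (hx : x ∈ thresholdEnergies m) :
    ∃ j, 1 ≤ j ∧ 0 < nn m j ∧ x ≤ 2 * ff m j := by
  classical
  obtain ⟨n', G, hconn, ⟨n, s, ⟨e⟩⟩, hedge, hE⟩ := hx
  obtain ⟨h1, h2, h3⟩ := lapEnergy_eq G s e
  subst h1
  rw [h2] at hedge
  rw [← hE, h3]
  have hn2 : 2 ≤ n' := by
    by_contra hcon
    have : edg s = 0 := by
      unfold edg
      apply Finset.sum_eq_zero
      intro l _
      have := l.isLt
      split_ifs
      · omega
      · rfl
    omega
  have hconn' : (thrGraph s).Connected := e.connected_iff.1 hconn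
  have hlast : ∀ l : Fin n', l.val + 1 = n' → s l = true := by
    intro l hl
    have : Nontrivial (Fin n') := Fin.nontrivial_iff_two_le.2 hn2
    have hd := hconn'.preconnected.degree_pos_of_nontrivial l
    rw [SimpleGraph.degree_pos_iff_exists_adj] at hd
    obtain ⟨w, hw⟩ := hd
    rw [thr_adj] at hw
    have hle : w ≤ l := by rw [Fin.le_def]; have := w.isLt; omega
    rw [max_eq_left hle] at hw
    exact hw.2
  obtain ⟨k, hk, hk0, hb1, hb2⟩ := en_bounds s (by omega) hlast
  rw [hedge] at hb1 hb2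
  refine upper_main hm hk ?_ hk0 hb1 hb2
  -- n ≤ m + 1
  have : n' - 1 ≤ edg s := by
    have h5 : (if s ⟨n' - 1, by omega⟩ then (⟨n' - 1, by omega⟩ : Fin n').val else 0) ≤ edg s := by
      unfold edg
      exact Finset.single_le_sum (f := fun l : Fin n' => if s l then l.val else 0)
        (fun _ _ => Nat.zero_le _) (Finset.mem_univ _)
    rw [if_pos (hlast ⟨n' - 1, by omega⟩ (by change n' - 1 + 1 = n'; omega))] at h5
    exact h5
  omega

theorem lower {m j : ℕ} (hj : 1 ≤ j) (hjm : (j + 1).choose 2 ≤ m)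
    (hopt : ∀ x ∈ thresholdEnergies m, x ≤ 2 * ff m j) : 2 * ff m j ∈ thresholdEnergies m := by
  have e := choose_succ_two j
  have hn : j + 1 ≤ m + 1 - j.choose 2 := by omega
  have hE : edg (pcode (m + 1 - j.choose 2) j) = m := by
    rw [pcode_edg hn]; omega
  obtain ⟨-, h2, h3⟩ := lapEnergy_eq (thrGraph (pcode (m + 1 - j.choose 2) j))
    (pcode (m + 1 - j.choose 2) j) Iso.refl
  have hmem : lapEnergy (thrGraph (pcode (m + 1 - j.choose 2) j)) ∈ thresholdEnergies m :=
    ⟨m + 1 - j.choose 2, thrGraph (pcode (m + 1 - j.choose 2) j), pcode_conn (by omega),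
      ⟨_, _, ⟨Iso.refl⟩⟩, by rw [h2, hE], rfl⟩
  have h4 := pcode_energy hj hn
  rw [hE, nn_cast (by omega : j.choose 2 ≤ m)] at h4
  have h5 : lapEnergy (thrGraph (pcode (m + 1 - j.choose 2) j)) = 2 * ff m j := by
    apply le_antisymm (hopt _ hmem)
    rw [h3]
    exact h4
  rw [← h5]
  exact hmem

theorem optIndex_spec {m : ℕ} (hm : 16 ≤ m) :
    3 ≤ optIndex m ∧ Qn m (optIndex m) ∧ ∀ j, 3 ≤ j → j < optIndex m → ¬ Qn m j := by
  have hdef : optIndex m = sInf {j : ℕ | 3 ≤ j ∧
      (j + 1) * (m + 1 - j.choose 2) * (m + 1 - (j + 1).choose 2) ≤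
        2 * m * (m + 1 + (j + 1).choose 2)} := by
    unfold optIndex; rw [if_neg (by omega)]
  have hne : {j : ℕ | 3 ≤ j ∧
      (j + 1) * (m + 1 - j.choose 2) * (m + 1 - (j + 1).choose 2) ≤
        2 * m * (m + 1 + (j + 1).choose 2)}.Nonempty := by
    refine ⟨m + 3, by omega, ?_⟩
    have h1 : m + 1 - (m + 3 + 1).choose 2 = 0 := by
      have := choose_succ_two (m + 3)
      omega
    rw [h1, mul_zero]
    exact Nat.zero_le _
  rw [hdef]
  have := Nat.sInf_mem hne
  refine ⟨this.1, this.2, ?_⟩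
  intro j hj hlt hQ
  exact Nat.notMem_of_lt_sInf hlt ⟨hj, hQ⟩

theorem opt {m : ℕ} (hm : 1 ≤ m) : 1 ≤ optIndex m ∧ (optIndex m + 1).choose 2 ≤ m ∧
    ∀ i, 1 ≤ i → 0 < nn m i → ff m i ≤ ff m (optIndex m) := by
  rcases Nat.lt_or_ge 15 m with h | h
  · obtain ⟨h1, h2, h3⟩ := optIndex_spec (m := m) (by omega)
    refine ⟨by omega, choose_large (by omega) h1 h3, ?_⟩
    intro i hi hpos
    exact ff_opt_large (by omega) h1 h2 h3 hi hpos
  · have hdef : optIndex m = 1 := by unfold optIndex; rw [if_pos h]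
    rw [hdef]
    refine ⟨le_refl _, ?_, ?_⟩
    · have : (1 + 1 : ℕ).choose 2 = 1 := by decide
      rw [this]; exact hm
    · intro i hi hpos
      exact ff_opt_small h hm hi hpos

/-- **Q2.** For every `m ≥ 1`, the maximum Laplacian energy of connected threshold graphs with `m`
edges is `2m + J(J+1) - 4mJ/(m+1-C(J,2))` with `J = optIndex m`; equivalently it is the largest of
the values `2m + j(j+1) - 4mj/(m+1-C(j,2))` over `j ≥ 1` with `C(j+1,2) ≤ m`. -/
theorem result : ∀ m : ℕ, 1 ≤ m →
    IsGreatest (thresholdEnergies m) (pineappleEnergy m (optIndex m)) ∧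
    IsGreatest {x : ℝ | ∃ j : ℕ, 1 ≤ j ∧ (j + 1).choose 2 ≤ m ∧ x = pineappleEnergy m j}
      (pineappleEnergy m (optIndex m)) := by
  intro m hm
  obtain ⟨h1, h2, h3⟩ := opt hm
  refine ⟨⟨?_, ?_⟩, ⟨?_, ?_⟩⟩
  · rw [pineappleEnergy_eq]
    apply lower h1 h2
    intro x hx
    obtain ⟨j, hj1, hj2, hj3⟩ := upper hm hx
    have := h3 j hj1 hj2
    linarith
  · intro x hx
    obtain ⟨j, hj1, hj2, hj3⟩ := upper hm hx
    have := h3 j hj1 hj2
    rw [pineappleEnergy_eq]
    linarith
  · exact ⟨_, h1, h2, rfl⟩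
  · rintro x ⟨j, hj1, hj2, rfl⟩
    rw [pineappleEnergy_eq, pineappleEnergy_eq]
    have := h3 j hj1 ((nn_pos_iff m j).2 (by have := choose_succ_two j; omega))
    linarith

end Pool.Agent.Results.MP_2d204e_co.ThresholdEnergy
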